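import Mathlib

set_option autoImplicit false

namespace Pool.Agent.H.MP_70593a_al

/-- Terms over four generators with one four-ary operation. -/
inductive T : Type
  | gen : Fin 4 → T
  | node : (Fin 4 → T) → T

/-- Size of a term. -/
def T.size : T → ℕ
  | .gen _ => 1
  | .node s => 1 + ∑ i, (s i).size

theorem size_child (s : Fin 4 → T) (i : Fin 4) : (s i).size < (T.node s).size := by
  have : (s i).size ≤ ∑ i, (s i).size :=
    Finset.single_le_sum (f := fun i => (s i).size) (fun _ _ => Nat.zero_le _) (Finset.mem_univ i)
  simp only [T.size]; omega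

theorem size_pos (x : T) : 0 < x.size := by
  cases x <;> simp only [T.size] <;> omega

/-- The crown order on the generators: 0, 1 below 2, 3. -/
def B (g h : Fin 4) : Prop := g = h ∨ (g.val < 2 ∧ 2 ≤ h.val)

instance (g h : Fin 4) : Decidable (B g h) := by unfold B; infer_instance

theorem B_trans : ∀ g h k : Fin 4, B g h → B h k → B g k := by decide

/-- The free order. -/
inductive Le : T → T → Prop
  | base (g h : Fin 4) : B g h → Le (.gen g) (.gen h)
  | mono (s t : Fin 4 → T) : (∀ i, Le (s i) (t i)) → Le (.node s) (.node t)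
  | left (s : Fin 4 → T) (t : T) (j : Fin 4) : (∀ i, i ≠ j → Le (s i) t) → Le (.node s) t
  | right (s : T) (t : Fin 4 → T) (j : Fin 4) : (∀ i, i ≠ j → Le s (t i)) → Le s (.node t)

theorem Le.refl : ∀ x : T, Le x x
  | .gen g => .base g g (Or.inl rfl)
  | .node s => .mono s s fun i => Le.refl (s i)

theorem exists_ne3 : ∀ j k l : Fin 4, ∃ i, i ≠ j ∧ i ≠ k ∧ i ≠ l := by decide

theorem trans_aux (n : ℕ) : ∀ x y z : T, x.size + y.size + z.size ≤ n →
    Le x y → Le y z → Le x z := by
  induction n with
  | zero => intro x y z h; have := size_pos x; omega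
  | succ n ih =>
    intro x y z hn hxy hyz
    cases hxy with
    | left s _ j h =>
      refine .left s z j fun i hi => ih _ y z ?_ (h i hi) hyz
      have := size_child s i; omega
    | base g h hb =>
      cases hyz with
      | base _ k hb' => exact .base g k (B_trans _ _ _ hb hb')
      | right _ t k h' =>
        refine .right _ t k fun i hi => ih _ _ _ ?_ (.base g h hb) (h' i hi)
        have := size_child t i; omega
    | mono s u h =>
      cases hyz with
      | mono _ t h' =>
        refine .mono s t fun i => ih _ _ _ ?_ (h i) (h' i)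
        have := size_child s i; have := size_child u i; have := size_child t i; omega
      | left _ _ k h' =>
        refine .left s z k fun i hi => ih _ _ _ ?_ (h i) (h' i hi)
        have := size_child s i; have := size_child u i; omega
      | right _ t k h' =>
        refine .right _ t k fun i hi => ih _ _ _ ?_ (.mono s u h) (h' i hi)
        have := size_child t i; omega
    | right _ u j h =>
      cases hyz with
      | mono _ t h' =>
        refine .right x t j fun i hi => ih _ _ _ ?_ (h i hi) (h' i)
        have := size_child u i; have := size_child t i; omega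
      | left _ _ k h' =>
        obtain ⟨i, hij, hik, -⟩ := exists_ne3 j k k
        refine ih _ _ _ ?_ (h i hij) (h' i hik)
        have := size_child u i; omega
      | right _ t k h' =>
        refine .right _ t k fun i hi => ih _ _ _ ?_ (.right x u j h) (h' i hi)
        have := size_child t i; omega

theorem Le.trans {x y z : T} (h : Le x y) (h' : Le y z) : Le x z :=
  trans_aux _ x y z le_rfl h h'

/-- Abstract properties of the free order, symmetric under reversal. -/
structure Good (le : T → T → Prop) : Prop where
  refl : ∀ x, le x x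
  trans : ∀ x y z, le x y → le y z → le x z
  left : ∀ (s : Fin 4 → T) (t : T) (j : Fin 4), (∀ i, i ≠ j → le (s i) t) → le (.node s) t
  inv : ∀ (x : T) (t : Fin 4 → T), le x (.node t) →
    (∃ s, x = .node s ∧ ∀ i, le (s i) (t i)) ∨
    (∃ s j, x = .node s ∧ ∀ i, i ≠ j → le (s i) (.node t)) ∨
    (∃ j, ∀ i, i ≠ j → le x (t i))

theorem good_le : Good Le where
  refl := Le.refl
  trans := fun _ _ _ => Le.trans
  left := Le.left
  inv := by
    intro x t h
    cases h with
    | mono s _ h => exact Or.inl ⟨s, rfl, h⟩
    | left s _ j h => exact Or.inr (Or.inl ⟨s, j, rfl, h⟩)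
    | right _ _ j h => exact Or.inr (Or.inr ⟨j, h⟩)

theorem good_ge : Good (fun x y => Le y x) where
  refl := Le.refl
  trans := fun _ _ _ h h' => Le.trans h' h
  left := fun s t j h => Le.right t s j h
  inv := by
    intro x t h
    cases h with
    | mono _ s h => exact Or.inl ⟨s, rfl, h⟩
    | left _ _ j h => exact Or.inr (Or.inr ⟨j, h⟩)
    | right _ s j h => exact Or.inr (Or.inl ⟨s, j, rfl, h⟩)

/-- Elements forced below every upper bound of `E`. -/
inductive K (le : T → T → Prop) (E : Set T) : T → Prop
  | base (x e : T) : e ∈ E → le x e → K le E x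
  | step (s : Fin 4 → T) (j : Fin 4) : (∀ i, i ≠ j → K le E (s i)) → K le E (.node s)

variable {le : T → T → Prop}

theorem K.le_ub (hg : Good le) {E : Set T} {u : T} (hu : ∀ e ∈ E, le e u) {x : T}
    (hx : K le E x) : le x u := by
  induction hx with
  | base x e he h => exact hg.trans _ _ _ h (hu e he)
  | step s j _ ih => exact hg.left s u j ih

theorem K.down (hg : Good le) {E : Set T} {y : T} (hy : K le E y) :
    ∀ x, le x y → K le E x := by
  induction hy with
  | base y e he h => exact fun x hx => .base x e he (hg.trans _ _ _ hx h)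
  | step t j _ ih =>
    intro x
    induction x with
    | gen g =>
      intro hx
      rcases hg.inv _ t hx with ⟨s, hs, -⟩ | ⟨s, k, hs, -⟩ | ⟨k, h⟩
      · cases hs
      · cases hs
      · obtain ⟨i, hij, hik, -⟩ := exists_ne3 j k k
        exact ih i hij _ (h i hik)
    | node u ihu =>
      intro hx
      rcases hg.inv _ t hx with ⟨s, hs, h⟩ | ⟨s, k, hs, h⟩ | ⟨k, h⟩
      · cases hs
        exact .step _ j fun i hi => ih i hi _ (h i)
      · cases hs
        exact .step _ k fun i hi => ihu i (h i hi)
      · obtain ⟨i, hij, hik, -⟩ := exists_ne3 j k k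
        exact ih i hij _ (h i hik)

theorem K.change (hg : Good le) {E E' : Set T} (h : ∀ e ∈ E, K le E' e) {x : T}
    (hx : K le E x) : K le E' x := by
  induction hx with
  | base x e he hx => exact (h e he).down hg x hx
  | step s j _ ih => exact .step s j ih

theorem K.nonempty {E : Set T} {x : T} (hx : K le E x) : E.Nonempty := by
  induction hx with
  | base x e he _ => exact ⟨e, he⟩
  | step s j _ ih =>
    obtain ⟨i, hij, -⟩ := exists_ne3 j j j
    exact ih i hij

theorem unique_below (hg : Good le) {E : Set T} {t : T} (ht : ∀ e ∈ E, le e t)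
    (h1 : ∀ s j, T.node s ∈ E → ¬ ∀ i, i ≠ j → le (s i) t)
    (h2 : ∀ e ∈ E, ∀ e' ∈ E, le e e' → e = e') {x : T} (hx : K le E x) :
    ∀ e ∈ E, ∀ e' ∈ E, le e x → le e' x → e = e' := by
  induction hx with
  | base x d hd h =>
    intro e he e' he' hex hex'
    rw [h2 e he d hd (hg.trans _ _ _ hex h), h2 e' he' d hd (hg.trans _ _ _ hex' h)]
  | step u j hu ih =>
    have key : ∀ e ∈ E, le e (.node u) → ∃ k, ∀ i, i ≠ k → le e (u i) := by
      intro e he hex
      rcases hg.inv _ u hex with ⟨s, hs, h⟩ | ⟨s, k, hs, h⟩ | h
      · subst hs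
        exact absurd (fun i hi => hg.trans _ _ _ (h i) ((hu i hi).le_ub hg ht)) (h1 s j he)
      · subst hs
        exact absurd (fun i hi => hg.trans _ _ _ (h i hi) ((K.step u j hu).le_ub hg ht))
          (h1 s k he)
      · exact h
    intro e he e' he' hex hex'
    obtain ⟨k, hk⟩ := key e he hex
    obtain ⟨k', hk'⟩ := key e' he' hex'
    obtain ⟨i, hij, hik, hik'⟩ := exists_ne3 j k k'
    exact ih i hij e he e' he' (hk i hik) (hk' i hik')

theorem claimC (hg : Good le) (N : ℕ) (t : T) (n : ℕ) : ∀ E : Finset T,
    ∑ e ∈ E, e.size ≤ n → (∀ e ∈ E, e.size ≤ N) → (∀ e ∈ E, le e t) → K le (E : Set T) t →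
    ∃ s : T, s.size ≤ N ∧ le s t ∧ le t s := by
  classical
  induction n with
  | zero =>
    intro E hE _ _ hK
    obtain ⟨e, he⟩ := hK.nonempty
    have h1 : e.size ≤ ∑ e ∈ E, e.size :=
      Finset.single_le_sum (f := fun e => e.size) (fun _ _ => Nat.zero_le _) he
    have := size_pos e
    omega
  | succ n ih =>
    intro E hE hN ht hK
    by_cases h1 : ∃ s j, T.node s ∈ E ∧ ∀ i, i ≠ j → le (s i) t
    · obtain ⟨s, j, hs, h⟩ := h1
      refine ih (E.erase (.node s) ∪ (Finset.univ.erase j).image s) ?_ ?_ ?_ ?_
      · have a1 := Finset.sum_union_inter (s₁ := E.erase (.node s))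
          (s₂ := (Finset.univ.erase j).image s) (f := fun e => e.size)
        have a2 := Finset.add_sum_erase E (fun e => e.size) hs
        have a3 : ∑ e ∈ (Finset.univ.erase j).image s, e.size ≤
            ∑ i ∈ Finset.univ.erase j, (s i).size :=
          Finset.sum_image_le_of_nonneg (fun _ _ => Nat.zero_le _)
        have a4 : ∑ i ∈ Finset.univ.erase j, (s i).size ≤ ∑ i, (s i).size :=
          Finset.sum_le_sum_of_subset (Finset.erase_subset _ _)
        simp only [T.size] at a2
        omega
      · intro e he
        rcases Finset.mem_union.1 he with he | he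
        · exact hN e (Finset.mem_of_mem_erase he)
        · obtain ⟨i, -, rfl⟩ := Finset.mem_image.1 he
          exact (size_child s i).le.trans (hN _ hs)
      · intro e he
        rcases Finset.mem_union.1 he with he | he
        · exact ht e (Finset.mem_of_mem_erase he)
        · obtain ⟨i, hi, rfl⟩ := Finset.mem_image.1 he
          exact h i (Finset.ne_of_mem_erase hi)
      · refine hK.change hg fun e he => ?_
        by_cases hes : e = .node s
        · subst hes
          refine .step s j fun i hi => .base _ (s i) ?_ (hg.refl _)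
          exact Finset.mem_coe.2 (Finset.mem_union_right _
            (Finset.mem_image_of_mem s (Finset.mem_erase.2 ⟨hi, Finset.mem_univ _⟩)))
        · exact .base e e (Finset.mem_coe.2 (Finset.mem_union_left _
            (Finset.mem_erase.2 ⟨hes, he⟩))) (hg.refl _)
    by_cases h2 : ∃ e ∈ E, ∃ e' ∈ E, le e e' ∧ e ≠ e'
    · obtain ⟨d, hd, d', hd', hle, hne⟩ := h2
      refine ih (E.erase d) ?_ ?_ ?_ ?_
      · have a2 := Finset.add_sum_erase E (fun e => e.size) hd
        have := size_pos d
        omega
      · exact fun e he => hN e (Finset.mem_of_mem_erase he)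
      · exact fun e he => ht e (Finset.mem_of_mem_erase he)
      · refine hK.change hg fun e he => ?_
        by_cases hes : e = d
        · subst hes
          exact .base e d' (Finset.mem_coe.2 (Finset.mem_erase.2 ⟨hne.symm, hd'⟩)) hle
        · exact .base e e (Finset.mem_coe.2 (Finset.mem_erase.2 ⟨hes, he⟩)) (hg.refl _)
    obtain ⟨e, he⟩ := hK.nonempty
    have hu := unique_below hg (E := (E : Set T)) (t := t) ht
      (fun s j hs h => h1 ⟨s, j, hs, h⟩)
      (fun e he e' he' h => by
        by_contra hne
        exact h2 ⟨e, he, e', he', h, hne⟩) hK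
    refine ⟨e, hN e he, ht e he, hK.le_ub hg fun e' he' => ?_⟩
    rw [hu e' he' e he (ht e' he') (ht e he)]
    exact hg.refl e

theorem smaller (hg : Good le) (s : Fin 4 → T) (j : Fin 4)
    (h : ∀ i, i ≠ j → le (s i) (.node s)) :
    ∃ u : T, u.size < (T.node s).size ∧ le u (.node s) ∧ le (.node s) u := by
  classical
  obtain ⟨u, hu, h1, h2⟩ := claimC hg ((T.node s).size - 1) (.node s) _
    ((Finset.univ.erase j).image s) le_rfl
    (fun e he => by
      obtain ⟨i, -, rfl⟩ := Finset.mem_image.1 he
      have := size_child s i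
      omega)
    (fun e he => by
      obtain ⟨i, hi, rfl⟩ := Finset.mem_image.1 he
      exact h i (Finset.ne_of_mem_erase hi))
    (.step s j fun i hi => .base _ (s i) (Finset.mem_coe.2
      (Finset.mem_image_of_mem s (Finset.mem_erase.2 ⟨hi, Finset.mem_univ _⟩))) (hg.refl _))
  have := size_pos (T.node s)
  exact ⟨u, by omega, h1, h2⟩

/-- The involution on generators. -/
def sw : Fin 4 → Fin 4 := ![1, 0, 3, 2]

/-- The involution on terms. -/
def sig : T → T
  | .gen g => .gen (sw g)
  | .node s => .node fun i => sig (s i)

theorem sw_sw : ∀ g, sw (sw g) = g := by decide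

theorem B_sw : ∀ g h, B g h → B (sw g) (sw h) := by decide

theorem not_B_sw : ∀ g, ¬ B g (sw g) := by decide

theorem sig_sig : ∀ x, sig (sig x) = x
  | .gen g => by simp only [sig, sw_sw]
  | .node s => by
    simp only [sig]
    congr 1
    funext i
    exact sig_sig (s i)

theorem Le.sig {x y : T} (h : Le x y) : Le (sig x) (sig y) := by
  induction h with
  | base g h hb => exact .base _ _ (B_sw _ _ hb)
  | mono s t _ ih => exact .mono _ _ ih
  | left s t j _ ih => exact .left _ _ j ih
  | right s t j _ ih => exact .right _ _ j ih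

theorem no_loop_aux (n : ℕ) : ∀ w : T, w.size ≤ n → ¬ Le w (sig w) := by
  induction n with
  | zero => intro w h; have := size_pos w; omega
  | succ n ih =>
    intro w hn hw
    have hw' : Le (sig w) w := by simpa only [sig_sig] using hw.sig
    have fin : ∀ u : T, u.size < w.size → Le u w → Le w u → False := fun u hu h1 h2 =>
      ih u (by omega) (h1.trans (hw.trans h2.sig))
    cases w with
    | gen g =>
      simp only [sig] at hw
      cases hw with
      | base _ _ hb => exact not_B_sw g hb
    | node s =>
      have hw0 := hw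
      simp only [sig] at hw0
      rcases good_le.inv _ _ hw0 with ⟨s', hs, h⟩ | ⟨s', k, hs, h⟩ | ⟨k, h⟩
      · cases hs
        have := size_child s 0
        exact ih (s 0) (by omega) (h 0)
      · cases hs
        obtain ⟨u, hu, h1, h2⟩ := smaller good_le s k fun i hi => (h i hi).trans hw'
        exact fin u hu h1 h2
      · obtain ⟨u, hu, h1, h2⟩ := smaller good_ge s k fun i hi => by
          have := (h i hi).sig
          rw [sig_sig] at this
          exact hw.trans this
        exact fin u hu h2 h1

theorem no_loop (w : T) : ¬ Le w (sig w) := no_loop_aux _ w le_rfl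

/-- Terms modulo mutual comparison. -/
def st : Setoid T where
  r x y := Le x y ∧ Le y x
  iseqv := ⟨fun x => ⟨Le.refl x, Le.refl x⟩, fun h => ⟨h.2, h.1⟩,
    fun h h' => ⟨h.1.trans h'.1, h'.2.trans h.2⟩⟩

/-- The carrier. -/
def A : Type := Quotient st

/-- The class of a term. -/
def cl (x : T) : A := Quotient.mk st x

/-- A representative. -/
noncomputable def rep (a : A) : T := Quotient.out (s := st) a

theorem cl_rep (a : A) : cl (rep a) = a := Quotient.out_eq (s := st) a

theorem rep_cl (x : T) : Le (rep (cl x)) x ∧ Le x (rep (cl x)) :=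
  Quotient.exact (s := st) (cl_rep (cl x))

/-- The relation. -/
def R (a b : A) : Prop := Le (rep a) (sig (rep b))

theorem R_cl {x y : T} (h : Le x (sig y)) : R (cl x) (cl y) :=
  (rep_cl x).1.trans (h.trans (rep_cl y).2.sig)

/-- The operation. -/
noncomputable def f (x : Fin 4 → A) : A := cl (.node fun i => rep (x i))

theorem f_nu (x y : A) (i : Fin 4) : f (Function.update (fun _ => x) i y) = x := by
  rw [← cl_rep x]
  refine Quotient.sound (s := st) ⟨Le.left _ _ i fun k hk => ?_, Le.right _ _ i fun k hk => ?_⟩
  · rw [Function.update_of_ne hk, cl_rep]; exact Le.refl _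
  · rw [Function.update_of_ne hk, cl_rep]; exact Le.refl _

theorem f_compat (x y : Fin 4 → A) (h : ∀ i, R (x i) (y i)) : R (f x) (f y) :=
  R_cl (Le.mono _ _ h)

theorem R_gen (g h : Fin 4) (hb : B g (sw h)) : R (cl (.gen g)) (cl (.gen h)) :=
  R_cl (Le.base _ _ hb)

end Pool.Agent.H.MP_70593a_al
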